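import Pool.Agent.H52.MG.Basic
import Pool.Agent.H52.MG.Targets

/-!
# MG project: AL0 (two classes joined by two edges)
-/

set_option autoImplicit false

noncomputable section

open Classical Module
open scoped Matrix

namespace Pool.Agent.H36.MG

open Pool.Agent.H52.MG

/-- if a body is contained in another one we can merge -/
lemma Mrg_of_subset {V : Type} [Fintype V] {G : SimpleGraph V} {c : V → V} {p q : V → Vec}
    (hE : Eqv (HP G c) p q) {a b : V} (hab : c a ≠ c b) (h : Bd G c a ⊆ Bd G c b) :
    Mrg G c p q :=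
  ⟨a, b, hab, (Cgr_Bd hE b).mono (Set.union_subset h subset_rfl)⟩

lemma al0_aux {V : Type} [Fintype V] (G : SimpleGraph V) (c : V → V) (p q : V → Vec)
    (x y y' : V) (hCp : Cp G c) (hE : Eqv (HP G c) p q) (hy : c y' = c y) (hxy : c x ≠ c y)
    (e1 : G.Adj x y) (e2 : G.Adj x y') (hne : y ≠ y')
    (ho : ∀ u w, c u = c x → c w ≠ c x → G.Adj u w → (u = x ∧ w = y) ∨ (u = x ∧ w = y'))
    (hall : ∀ v, c v = c x ∨ c v = c y) : Mrg G c p q := by
  have hZ : ClU c {v | c v = c x} := fun u w h1 h2 => by
    simp only [Set.mem_ofPred_eq] at h2 ⊢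
    rw [← h1]; exact h2
  rcases hCp {v | c v = c x} hZ x y y' rfl (fun h => hxy h.symm)
    (fun h => hxy (by rw [← hy]; exact h.symm)) hne e1 e2
    (fun u w h1 h2 h3 => by
      rcases ho u w h1 h2 h3 with h | h
      · exact ⟨h.1, Or.inl h.2⟩
      · exact ⟨h.1, Or.inr h.2⟩) with h | h
  · -- the class of `x` is a singleton
    have hx : ∀ v, c v = c x → v = x := by
      intro v hv
      exact (Set.ncard_le_one (Set.toFinite _)).mp h v hv x rfl
    apply Mrg_of_subset hE hxy
    rintro u (hu | ⟨w, hw, hcw⟩)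
    · rw [hx u hu]
      exact mem_Bd_of_adj e1
    · by_cases hcu : c u = c x
      · rw [hx u hcu]
        exact mem_Bd_of_adj e1
      · rcases ho w u hcw hcu hw.symm with h' | h'
        · rw [h'.2]; exact mem_Bd_self G c y
        · rw [h'.2]; exact Or.inl hy
  · -- the class of `y` is `{y, y'}`
    have hYc : ({y, y'} : Set V) = {v | c v = c x}ᶜ := by
      apply Set.eq_of_subset_of_ncard_le
      · rintro v (hv | hv)
        · rw [hv]; exact fun h => hxy h.symm
        · rw [hv]; exact fun h => hxy (by rw [← hy]; exact h.symm)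
      · rw [Set.ncard_pair hne]; exact h
      · exact Set.toFinite _
    apply Mrg_of_subset hE hxy.symm
    rintro u (hu | ⟨w, hw, hcw⟩)
    · have : u ∈ ({y, y'} : Set V) := by
        rw [hYc]
        exact fun h => hxy (by rw [← hu]; exact h.symm)
      rcases this with h' | h'
      · rw [h']; exact mem_Bd_of_adj e1.symm
      · rw [h']; exact mem_Bd_of_adj e2.symm
    · rcases hall u with hcu | hcu
      · exact Or.inl hcu
      · have : u ∈ ({y, y'} : Set V) := by
          rw [hYc]
          exact fun h => hxy (by rw [← hcu]; exact h.symm)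
        rcases this with h' | h'
        · rw [h']; exact mem_Bd_of_adj e1.symm
        · rw [h']; exact mem_Bd_of_adj e2.symm

theorem al0 (hM4 : T_M4) : T_AL0 := by
  intro V _ G c p q x y x' y' hg hCp hE hx hy hxy e1 e2 hne ho hall
  by_cases hxx : x = x'
  · subst hxx
    have hyy : y ≠ y' := fun h => hne ⟨rfl, h⟩
    exact al0_aux G c p q x y y' hCp hE hy hxy e1 e2 hyy ho hall
  · by_cases hyy : y = y'
    · subst hyy
      refine al0_aux G c p q y x x' hCp hE hx hxy.symm e1.symm e2.symm hxx ?_
        (fun v => (hall v).symm)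
      intro u w hu hw h
      have hcw : c w = c x := (hall w).resolve_right hw
      rcases ho w u hcw (fun h' => hxy (by rw [← hu]; exact h'.symm)) h.symm with h' | h'
      · exact Or.inl ⟨h'.2, h'.1⟩
      · exact Or.inr ⟨h'.2, h'.1⟩
    · refine ⟨x, y, hxy, hM4 V p q (Bd G c x) (Bd G c y) x x' y y' hg (Cgr_Bd hE x)
        (Cgr_Bd hE y) ?_ ?_ ?_ ?_ hxx ?_ ?_ ?_ ?_ hyy⟩
      · exact ⟨mem_Bd_self G c x, mem_Bd_of_adj e1⟩
      · refine ⟨Or.inl hx, ?_⟩
        rw [← Bd_congr hy]
        exact mem_Bd_of_adj e2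
      · exact ⟨mem_Bd_of_adj e1.symm, mem_Bd_self G c y⟩
      · refine ⟨?_, Or.inl hy⟩
        rw [← Bd_congr hx]
        exact mem_Bd_of_adj e2.symm
      · rintro rfl; exact hxy rfl
      · rintro rfl; exact hxy hy
      · rintro rfl; exact hxy hx.symm
      · rintro rfl; exact hxy (hx.symm.trans hy)

end Pool.Agent.H36.MG
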