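import Pool.Agent.H52.MG.Basic
import Pool.Agent.H52.MG.Targets

/-!
# MG project: M4 (four common atoms) and FOUR (four distances)
-/

set_option autoImplicit false

noncomputable section

open Classical Module
open scoped Matrix

namespace Pool.Agent.H36.MG

open Pool.Agent.H52.MG

/-- a vector orthogonal to three independent vectors vanishes -/
lemma vec_zero_of_dot (r u v w : Vec) (h : u ⬝ᵥ (v ⨯₃ w) ≠ 0) (h1 : r ⬝ᵥ u = 0)
    (h2 : r ⬝ᵥ v = 0) (h3 : r ⬝ᵥ w = 0) : r = 0 := by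
  rw [dot3] at h1 h2 h3 h
  simp only [cross_eq, Matrix.cons_val] at h
  apply vec_ext
  · simp only [Pi.zero_apply]
    apply mul_left_cancel₀ h
    rw [mul_zero]
    linear_combination (v 1 * w 2 - v 2 * w 1) * h1 + (w 1 * u 2 - w 2 * u 1) * h2 +
      (u 1 * v 2 - u 2 * v 1) * h3
  · simp only [Pi.zero_apply]
    apply mul_left_cancel₀ h
    rw [mul_zero]
    linear_combination (v 2 * w 0 - v 0 * w 2) * h1 + (w 2 * u 0 - w 0 * u 2) * h2 +
      (u 2 * v 0 - u 0 * v 2) * h3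
  · simp only [Pi.zero_apply]
    apply mul_left_cancel₀ h
    rw [mul_zero]
    linear_combination (v 0 * w 1 - v 1 * w 0) * h1 + (w 0 * u 1 - w 1 * u 0) * h2 +
      (u 0 * v 1 - u 1 * v 0) * h3

/-- two linear maps which agree on three independent vectors are equal -/
lemma mat_eq_of_three (L L' : Matrix (Fin 3) (Fin 3) ℝ) (u v w : Vec)
    (h : u ⬝ᵥ (v ⨯₃ w) ≠ 0) (h1 : L *ᵥ u = L' *ᵥ u) (h2 : L *ᵥ v = L' *ᵥ v)
    (h3 : L *ᵥ w = L' *ᵥ w) : L = L' := by
  have key : ∀ i, L i - L' i = 0 := by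
    intro i
    apply vec_zero_of_dot _ u v w h
    · rw [sub_dotProduct]
      exact sub_eq_zero.mpr (congrFun h1 i)
    · rw [sub_dotProduct]
      exact sub_eq_zero.mpr (congrFun h2 i)
    · rw [sub_dotProduct]
      exact sub_eq_zero.mpr (congrFun h3 i)
  funext i
  exact sub_eq_zero.mp (key i)

/-- orthogonal maps preserve the dot product -/
lemma orth_dot (L : Matrix (Fin 3) (Fin 3) ℝ) (hL : Orth L) (x y : Vec) :
    (L *ᵥ x) ⬝ᵥ (L *ᵥ y) = x ⬝ᵥ y := by
  rw [Matrix.dotProduct_mulVec, Matrix.vecMul_mulVec, hL, Matrix.vecMul_one]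

lemma dsq_isom (L : Matrix (Fin 3) (Fin 3) ℝ) (t : Vec) (hL : Orth L) (x y : Vec) :
    dsq (L *ᵥ x + t) (L *ᵥ y + t) = dsq x y := by
  unfold dsq
  rw [add_sub_add_right_eq_sub, ← Matrix.mulVec_sub, orth_dot L hL]

/-- two isometries agreeing at four points in general position are equal -/
lemma isom_eq_of_four (L L' : Matrix (Fin 3) (Fin 3) ℝ) (t t' a b e f : Vec)
    (h : (b - a) ⬝ᵥ ((e - a) ⨯₃ (f - a)) ≠ 0) (ha : L *ᵥ a + t = L' *ᵥ a + t')
    (hb : L *ᵥ b + t = L' *ᵥ b + t') (he : L *ᵥ e + t = L' *ᵥ e + t')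
    (hf : L *ᵥ f + t = L' *ᵥ f + t') : L = L' ∧ t = t' := by
  have key : ∀ x : Vec, L *ᵥ x + t = L' *ᵥ x + t' → L *ᵥ (x - a) = L' *ᵥ (x - a) := by
    intro x hx
    rw [Matrix.mulVec_sub, Matrix.mulVec_sub]
    have e1 : L *ᵥ x = L' *ᵥ x + t' - t := eq_sub_of_add_eq hx
    have e2 : L *ᵥ a = L' *ᵥ a + t' - t := eq_sub_of_add_eq ha
    rw [e1, e2]; abel
  have hL := mat_eq_of_three L L' _ _ _ h (key b hb) (key e he) (key f hf)
  subst hL
  exact ⟨rfl, add_left_cancel ha⟩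

/-- congruence from a common isometry -/
lemma Cgr_of_isom {V : Type} [Fintype V] {X : Set V} {p q : V → Vec}
    {L : Matrix (Fin 3) (Fin 3) ℝ} {t : Vec} (hL : Orth L) (h : ∀ x ∈ X, q x = L *ᵥ p x + t) :
    Cgr X p q := by
  intro u hu w hw
  rw [h u hu, h w hw, dsq_isom L t hL]

theorem m4 (hISO : T_ISO) (hGP : T_GP) : T_M4 := by
  intro V _ p q X Y a b e f hg hX hY ha hb he hf hab hae haf hbe hbf hef
  obtain ⟨L, t, hL, hLX⟩ := hISO V X p q hX
  obtain ⟨L', t', hL', hLY⟩ := hISO V Y p q hY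
  have h4 := (hGP V p hg).2.2 a b e f hab hae haf hbe hbf hef
  have key : ∀ x ∈ X ∩ Y, L *ᵥ p x + t = L' *ᵥ p x + t' := fun x hx => by
    rw [← hLX x hx.1, ← hLY x hx.2]
  obtain ⟨h1, h2⟩ := isom_eq_of_four L L' t t' _ _ _ _ h4 (key a ha) (key b hb) (key e he)
    (key f hf)
  subst h1; subst h2
  apply Cgr_of_isom hL
  rintro x (hx | hx)
  · exact hLX x hx
  · exact hLY x hx

theorem four (hISO : T_ISO) (hGP : T_GP) : T_FOUR := by
  intro V _ p q X z a b e f hg hX ha hb he hf hab hae haf hbe hbf hef da db de df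
  obtain ⟨L, t, hL, hLX⟩ := hISO V X p q hX
  have h4 := (hGP V p hg).2.2 a b e f hab hae haf hbe hbf hef
  have hL2 : L * Lᵀ = 1 := by
    exact mul_eq_one_comm.mp hL
  -- the point `z'`
  have key : ∀ x ∈ X, dsq (q z) (q x) = dsq (p z) (p x) →
      dsq (L *ᵥ p z + t) (q x) = dsq (q z) (q x) := by
    intro x hx h
    rw [h, hLX x hx, dsq_isom L t hL]
  have key2 : ∀ x ∈ X, dsq (q z) (q x) = dsq (p z) (p x) →
      (Lᵀ *ᵥ (L *ᵥ p z + t - q z)) ⬝ᵥ (p x - p a) = 0 := by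
    intro x hx h
    have e1 := key x hx h
    have e2 := key a ha da
    have e3 : q x - q a = L *ᵥ (p x - p a) := by
      rw [hLX x hx, hLX a ha, Matrix.mulVec_sub]; abel
    have e4 : (L *ᵥ p z + t - q z) ⬝ᵥ (q x - q a) = 0 := by
      unfold dsq at e1 e2
      simp only [dot3, Pi.sub_apply] at e1 e2 ⊢
      linear_combination (-1/2 : ℝ) * e1 + (1/2 : ℝ) * e2
    rw [e3, Matrix.dotProduct_mulVec] at e4
    rw [Matrix.mulVec_transpose]
    exact e4
  have h0 : Lᵀ *ᵥ (L *ᵥ p z + t - q z) = 0 :=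
    vec_zero_of_dot _ _ _ _ h4 (key2 b hb db) (key2 e he de) (key2 f hf df)
  have h1 : q z = L *ᵥ p z + t := by
    have := congrArg (fun x => L *ᵥ x) h0
    simp only [Matrix.mulVec_mulVec, hL2, Matrix.one_mulVec, Matrix.mulVec_zero] at this
    exact (sub_eq_zero.mp this).symm
  apply Cgr_of_isom hL
  rintro x (hx | hx)
  · rw [hx]; exact h1
  · exact hLX x hx

end Pool.Agent.H36.MG
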