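import Pool.Agent.H36.MG.AL0

/-!
# MG project: S4 (case (ii))
-/

set_option autoImplicit false

noncomputable section

open Classical Module
open scoped Matrix

namespace Pool.Agent.H36.MG

open Pool.Agent.H52.MG

lemma dgc_two_pair {V : Type} [Fintype V] (G : SimpleGraph V) (c : V → V) (x : V)
    (h : dgc G c x = 2) : ∃ a u b w, ¬ (a = b ∧ u = w) ∧ c a = c x ∧ c b = c x ∧ c u ≠ c x ∧
      c w ≠ c x ∧ G.Adj a u ∧ G.Adj b w ∧
      ∀ v z, c v = c x → c z ≠ c x → G.Adj v z → (v = a ∧ z = u) ∨ (v = b ∧ z = w) := by
  unfold dgc at h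
  rw [Finset.card_eq_two] at h
  obtain ⟨⟨a, u⟩, ⟨b, w⟩, hne, hf⟩ := h
  have h1 : (a, u) ∈ (Finset.univ : Finset (V × V)).filter
      (fun z => c z.1 = c x ∧ c z.2 ≠ c x ∧ G.Adj z.1 z.2) := by
    rw [hf]; simp
  have h2 : (b, w) ∈ (Finset.univ : Finset (V × V)).filter
      (fun z => c z.1 = c x ∧ c z.2 ≠ c x ∧ G.Adj z.1 z.2) := by
    rw [hf]; simp
  rw [Finset.mem_filter] at h1 h2
  refine ⟨a, u, b, w, ?_, h1.2.1, h2.2.1, h1.2.2.1, h2.2.2.1, h1.2.2.2, h2.2.2.2, ?_⟩
  · rintro ⟨rfl, rfl⟩; exact hne rfl
  · intro v z hv hz hvz
    have h3 : (v, z) ∈ (Finset.univ : Finset (V × V)).filter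
        (fun z => c z.1 = c x ∧ c z.2 ≠ c x ∧ G.Adj z.1 z.2) := by
      rw [Finset.mem_filter]
      exact ⟨Finset.mem_univ _, hv, hz, hvz⟩
    rw [hf, Finset.mem_insert, Finset.mem_singleton] at h3
    rcases h3 with h3 | h3
    · exact Or.inl ⟨congrArg Prod.fst h3, congrArg Prod.snd h3⟩
    · exact Or.inr ⟨congrArg Prod.fst h3, congrArg Prod.snd h3⟩

lemma dgc_le_two {V : Type} [Fintype V] (G : SimpleGraph V) (c : V → V) (x a u b w : V)
    (h : ∀ v z, c v = c x → c z ≠ c x → G.Adj v z → (v = a ∧ z = u) ∨ (v = b ∧ z = w)) :
    dgc G c x ≤ 2 := by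
  have h1 : (Finset.univ : Finset (V × V)).filter
      (fun z => c z.1 = c x ∧ c z.2 ≠ c x ∧ G.Adj z.1 z.2) ⊆ {(a, u), (b, w)} := by
    intro z hz
    rw [Finset.mem_filter] at hz
    rw [Finset.mem_insert, Finset.mem_singleton]
    rcases h z.1 z.2 hz.2.1 hz.2.2.1 hz.2.2.2 with h | h
    · exact Or.inl (Prod.ext h.1 h.2)
    · exact Or.inr (Prod.ext h.1 h.2)
  exact (Finset.card_le_card h1).trans Finset.card_le_two

theorem s4 (hS4A : T_S4A) (hS4B : T_S4B) (hM4 : T_M4) (hDEG : T_DEG) : T_S4 := by
  intro V _ G c p q x hg hT hCp hE hx2 hnb hs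
  obtain ⟨a, u, b, w, hne, hca, hcb, hcu, hcw, e1, e2, ho⟩ := dgc_two_pair G c x hx2
  -- replace `x` by `a`
  rw [← hca] at hcb hcu hcw
  have ho' : ∀ v z, c v = c a → c z ≠ c a → G.Adj v z → (v = a ∧ z = u) ∨ (v = b ∧ z = w) := by
    intro v z hv hz
    rw [hca] at hv hz
    exact ho v z hv hz
  have hu3 : 3 ≤ dgc G c u := hnb a u hca (by rw [← hca]; exact hcu) e1
  have hw3 : 3 ≤ dgc G c w := hnb b w (hcb.trans hca) (by rw [← hca]; exact hcw) e2
  have hs' : ∀ d : V → V, Coarse c d → (∀ v, d v = d a → c v = c a) → 6 ≤ s2 G d := by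
    intro d hd hd2
    apply hs d hd
    intro v hv
    rw [← hca]
    apply hd2
    rw [hv]
    exact (hd _ _ hca).symm
  have hua : u ≠ a := fun h => hcu (by rw [h])
  have hwa : w ≠ a := fun h => hcw (by rw [h])
  by_cases hab : a = b
  · subst hab
    have huw : u ≠ w := fun h => hne ⟨rfl, h⟩
    have hZ : ClU c {v | c v = c a} := fun v z h1 h2 => by
      change c z = c a
      rw [← h1]; exact h2
    rcases hCp {v | c v = c a} hZ a u w rfl hcu hcw huw e1 e2
      (fun v z h1 h2 h3 => by
        rcases ho' v z h1 h2 h3 with h | h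
        · exact ⟨h.1, Or.inl h.2⟩
        · exact ⟨h.1, Or.inr h.2⟩) with h | h
    · -- the class is a singleton
      have hsing : ∀ v, c v = c a → v = a := by
        intro v hv
        exact (Set.ncard_le_one (Set.toFinite _)).mp h v hv a rfl
      by_cases hcuw : c u = c w
      · apply Mrg_of_subset hE (a := a) (b := u) (fun h => hcu h.symm)
        rintro v (hv | ⟨z, hvz, hz⟩)
        · rw [hsing v hv]
          exact mem_Bd_of_adj e1
        · by_cases hcv : c v = c a
          · rw [hsing v hcv]
            exact mem_Bd_of_adj e1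
          · rcases ho' z v hz hcv hvz.symm with h' | h'
            · rw [h'.2]; exact mem_Bd_self G c u
            · rw [h'.2]; exact Or.inl hcuw.symm
      · refine hS4A V G c p q a u w hg hE hsing e1 e2 ?_ hcuw (hDEG V G c u hu3)
          (hDEG V G c w hw3) ?_
        · intro z hz
          have hza : z ≠ a := fun h => (G.loopless.1 a) (by rw [h] at hz; exact hz)
          rcases ho' a z rfl (fun h => hza (hsing z h)) hz with h' | h'
          · exact Or.inl h'.2
          · exact Or.inr h'.2
        · intro d hd hd2
          apply hs' d hd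
          intro v hv
          rw [hd2 v hv]
    · -- the complement is `{u, w}`
      exfalso
      have hYc : ({u, w} : Set V) = {v | c v = c a}ᶜ := by
        apply Set.eq_of_subset_of_ncard_le
        · rintro v (hv | hv)
          · rw [hv]; exact hcu
          · rw [hv]; exact hcw
        · rw [Set.ncard_pair huw]; exact h
        · exact Set.toFinite _
      have hall : ∀ v, c v ≠ c a → v = u ∨ v = w := by
        intro v hv
        have : v ∈ ({u, w} : Set V) := by rw [hYc]; exact hv
        exact this
      by_cases hcuw : c u = c w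
      · have := dgc_le_two G c u u a w a (by
          intro v z hv hz hvz
          have hva : c v ≠ c a := by rw [hv]; exact hcu
          have hza : c z = c a := by
            by_contra h0
            rcases hall z h0 with h' | h'
            · exact hz (by rw [h'])
            · exact hz (by rw [h']; exact hcuw.symm)
          rcases ho' z v hza hva hvz.symm with h' | h'
          · exact Or.inl ⟨h'.2, h'.1⟩
          · exact Or.inr ⟨h'.2, h'.1⟩)
        omega
      · have := dgc_le_two G c u u w u a (by
          intro v z hv hz hvz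
          have hva : c v ≠ c a := by rw [hv]; exact hcu
          have hvu : v = u := by
            rcases hall v hva with h' | h'
            · exact h'
            · exact absurd (by rw [← hv, h']) hcuw
          by_cases hza : c z = c a
          · rcases ho' z v hza hva hvz.symm with h' | h'
            · exact Or.inr ⟨h'.2, h'.1⟩
            · exact Or.inr ⟨hvu, h'.1⟩
          · rcases hall z hza with h' | h'
            · exact absurd (by rw [h']) hz
            · exact Or.inl ⟨hvu, h'⟩)
        omega
  · by_cases hcuw : c u = c w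
    · by_cases huw : u = w
      · subst huw
        have hZ : ClU c {v | c v ≠ c a} := fun v z h1 h2 => by
          change c z ≠ c a
          rw [← h1]; exact h2
        rcases hCp {v | c v ≠ c a} hZ u a b hcu (fun h => h rfl) (fun h => h hcb) hab e1.symm
          e2.symm (fun v z h1 h2 h3 => by
            have hz : c z = c a := not_not.mp h2
            rcases ho' z v hz h1 h3.symm with h | h
            · exact ⟨h.2, Or.inl h.1⟩
            · exact ⟨h.2, Or.inr h.1⟩) with h | h
        · -- only the atom `u`
          exfalso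
          have hsing : ∀ v, c v ≠ c a → v = u := by
            intro v hv
            exact (Set.ncard_le_one (Set.toFinite _)).mp h v hv u hcu
          have := dgc_le_two G c u u a u b (by
            intro v z hv hz hvz
            have hva : c v ≠ c a := by rw [hv]; exact hcu
            have hza : c z = c a := by
              by_contra h0
              exact hz (by rw [hsing z h0])
            rcases ho' z v hza hva hvz.symm with h' | h'
            · exact Or.inl ⟨h'.2, h'.1⟩
            · exact Or.inr ⟨h'.2, h'.1⟩)
          omega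
        · -- `X = {a, b}`
          have hXc : ({a, b} : Set V) = {v | c v ≠ c a}ᶜ := by
            apply Set.eq_of_subset_of_ncard_le
            · rintro v (hv | hv)
              · rw [hv]; exact fun h => h rfl
              · rw [hv]; exact fun h => h hcb
            · rw [Set.ncard_pair hab]; exact h
            · exact Set.toFinite _
          have hall : ∀ v, c v = c a → v = a ∨ v = b := by
            intro v hv
            have : v ∈ ({a, b} : Set V) := by rw [hXc]; exact fun h => h hv
            exact this
          have hab' : ∀ v, c v = c a → v ∈ Bd G c u := by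
            intro v hv
            rcases hall v hv with h' | h'
            · rw [h']; exact mem_Bd_of_adj e1
            · rw [h']; exact mem_Bd_of_adj e2
          apply Mrg_of_subset hE (a := a) (b := u) (fun h => hcu h.symm)
          rintro v (hv | ⟨z, hvz, hz⟩)
          · exact hab' v hv
          · by_cases hcv : c v = c a
            · exact hab' v hcv
            · rcases ho' z v hz hcv hvz.symm with h' | h'
              · rw [h'.2]; exact mem_Bd_self G c u
              · rw [h'.2]; exact mem_Bd_self G c u
      · refine ⟨a, u, fun h => hcu h.symm, hM4 V p q (Bd G c a) (Bd G c u) a b u w hg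
          (Cgr_Bd hE a) (Cgr_Bd hE u) ?_ ?_ ?_ ?_ hab hua.symm hwa.symm ?_ ?_ huw⟩
        · exact ⟨mem_Bd_self G c a, mem_Bd_of_adj e1⟩
        · refine ⟨Or.inl hcb, ?_⟩
          rw [Bd_congr hcuw]
          exact mem_Bd_of_adj e2
        · exact ⟨mem_Bd_of_adj e1.symm, mem_Bd_self G c u⟩
        · refine ⟨?_, Or.inl hcuw.symm⟩
          rw [← Bd_congr hcb]
          exact mem_Bd_of_adj e2.symm
        · rintro rfl; exact hcu hcb
        · rintro rfl; exact hcw hcb
    · exact hS4B V G c p q a u b w hg hE ⟨hcb, hab, hcu, hcw, hcuw, e1, e2, ho'⟩ hT hCp hu3 hw3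
        hs'

end Pool.Agent.H36.MG
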