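import Pool.Agent.H36.MG.S4F
import Pool.Agent.H36.MG.M4

/-!
# MG project: S4B (big class of degree two, different neighbour classes)
-/

set_option autoImplicit false

noncomputable section

open Classical Module
open scoped Matrix

namespace Pool.Agent.H36.MG

open Pool.Agent.H52.MG

lemma Deg2.swap {V : Type} [Fintype V] {G : SimpleGraph V} {c : V → V} {a u b w : V}
    (hD : Deg2 G c a u b w) : Deg2 G c b w a u where
  cb := hD.cb.symm
  ab := hD.ab.symm
  ua := fun h => hD.wa (h.trans hD.cb)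
  wa := fun h => hD.ua (h.trans hD.cb)
  uw := hD.uw.symm
  e1 := hD.e2
  e2 := hD.e1
  o := by
    intro v z hv hz h
    rcases hD.o v z (hv.trans hD.cb) (fun h => hz (h.trans hD.cb.symm)) h with h | h
    · exact Or.inr h
    · exact Or.inl h

lemma s4b_aux (hS4F : T_S4F) (hFB : T_FB) (hTL : T_TL) (hISO : T_ISO) (hDEG : T_DEG)
    {V : Type} [Fintype V] (G : SimpleGraph V) (c : V → V) (p q : V → Vec)
    (a u b w : V) (hg : Gen p) (hE : Eqv (HP G c) p q) (hD : Deg2 G c a u b w) (hT : Tt G c)
    (hu : 3 ≤ dgc G c u)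
    (hs : ∀ d : V → V, Coarse c d → (∀ v, d v = d a → c v = c a) → 6 ≤ s2 G d)
    (hP : ∀ S ∈ Mot (delS G (cls c a)) c p, ev (S u - S w) (p u) = 0 → S u = S w) :
    Mrg G c p q := by
  have h6 := hS4F V G c p a u b w hg hD hT hs hP
  have h9 : finrank ℝ (infMot (delV (HP G c) a) p) ≤ 9 + 0 := by
    have := hFB V G c p a (PinMot G c p a) hg (fun S hS => ⟨S, hS, fun _ _ => rfl⟩)
    omega
  obtain ⟨W, hW, hTL'⟩ := hTL V (HP G c) p q a 0 hg hE h9
  have hWtop : W = ⊤ := by
    apply Submodule.eq_top_of_finrank_eq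
    have h1 := Submodule.finrank_le W
    have h2 : finrank ℝ Vec = 3 := by simp
    omega
  have hcard : 4 ≤ (Bd G c a).ncard := by
    have h1 : (({a, b, u, w} : Finset V) : Set V) ⊆ Bd G c a := by
      intro v hv
      simp only [Finset.coe_insert, Finset.coe_singleton, Set.mem_insert_iff,
        Set.mem_singleton_iff] at hv
      rcases hv with rfl | rfl | rfl | rfl
      · exact mem_Bd_self G c _
      · exact Or.inl hD.cb
      · exact mem_Bd_of_adj hD.e1.symm
      · exact Or.inr ⟨b, hD.e2.symm, hD.cb⟩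
    have h2 := Set.ncard_le_ncard h1 (Set.toFinite _)
    rw [Set.ncard_coe_finset] at h2
    have h3 : ({a, b, u, w} : Finset V).card = 4 := by
      rw [Finset.card_insert_of_notMem, Finset.card_insert_of_notMem,
        Finset.card_insert_of_notMem, Finset.card_singleton]
      · rw [Finset.mem_singleton]
        exact fun h => hD.uw (by rw [h])
      · rw [Finset.mem_insert, Finset.mem_singleton]
        rintro (h | h)
        · exact hD.ua (by rw [← h]; exact hD.cb)
        · exact hD.wa (by rw [← h]; exact hD.cb)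
      · rw [Finset.mem_insert, Finset.mem_insert, Finset.mem_singleton]
        rintro (h | h | h)
        · exact hD.ab h
        · exact hD.ua (by rw [← h])
        · exact hD.wa (by rw [← h])
    omega
  obtain ⟨L, t, hL, hLX⟩ := hISO V (Bd G c a) p q (Cgr_Bd hE a)
  obtain ⟨L', t', hL', hLY⟩ := hISO V (Bd G c u) p q (Cgr_Bd hE u)
  have haa : a ∈ Bd G c a := mem_Bd_self G c a
  have hau : a ∈ Bd G c u := mem_Bd_of_adj hD.e1
  have hLL := hTL' (Bd G c a) (Bd G c u) haa hau hcard (hDEG V G c u hu) L t L' t' hL hL' hLX hLY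
  have hLL' : L = L' := by
    apply mat_eq_of_three L L' ![1, 0, 0] ![0, 1, 0] ![0, 0, 1]
    · simp [cross_eq]
    · exact hLL _ (by rw [hWtop]; trivial)
    · exact hLL _ (by rw [hWtop]; trivial)
    · exact hLL _ (by rw [hWtop]; trivial)
  subst hLL'
  have htt : t = t' := by
    have := (hLX a haa).symm.trans (hLY a hau)
    exact add_left_cancel this
  subst htt
  refine ⟨a, u, hD.ua.symm, Cgr_of_isom (t := t) hL ?_⟩
  rintro x (hx | hx)
  · exact hLX x hx
  · exact hLY x hx

theorem s4b (hS4C : T_S4C) (hMT : T_MT) (hS4E : T_S4E) (hS4F : T_S4F) (hFB : T_FB) (hTL : T_TL)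
    (hISO : T_ISO) (hDEG : T_DEG) : T_S4B := by
  intro V _ G c p q a u b w hg hE hD hT hCp hu hw hs
  by_cases hP : ∀ S ∈ Mot (delS G (cls c a)) c p, ev (S u - S w) (p u) = 0 → S u = S w
  · exact s4b_aux hS4F hFB hTL hISO hDEG G c p q a u b w hg hE hD hT hu hs hP
  · push Not at hP
    obtain ⟨S₀, hS₀, h1, h2⟩ := hP
    have hU := urel_le_one hS4C hMT G c p a u b w hg hD hT hs
    have hT₀ : S₀ u - S₀ w ∈ Urel (delS G (cls c a)) c p u w := mem_Urel.mpr ⟨S₀, hS₀, rfl⟩
    have h3 : S₀ u - S₀ w ≠ 0 := sub_ne_zero.mpr h2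
    have h4 : ev (S₀ u - S₀ w) (p w) ≠ 0 := fun h =>
      h2 (hS4E V G c p a u b w hg hD hT hCp hw hs S₀ hS₀ h1 h)
    have hcls : cls c b = cls c a := by
      unfold cls; rw [hD.cb]
    refine s4b_aux hS4F hFB hTL hISO hDEG G c p q b w a u hg hE (Deg2.swap hD) hT hw ?_ ?_
    · intro d hd hd2
      apply hs d hd
      intro v hv
      rw [← hD.cb]
      apply hd2
      rw [hv]
      exact (hd _ _ hD.cb).symm
    · intro S hS h5
      rw [hcls] at hS
      have h6 : S u - S w ∈ Urel (delS G (cls c a)) c p u w := mem_Urel.mpr ⟨S, hS, rfl⟩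
      -- `U` is spanned by `T₀`
      have h7 : ∃ r : ℝ, r • (S₀ u - S₀ w) = S u - S w := by
        have h8 := (finrank_le_one_iff (K := ℝ)
          (V := Urel (delS G (cls c a)) c p u w)).mp hU
        obtain ⟨v, hv⟩ := h8
        obtain ⟨r0, hr0⟩ := hv ⟨_, hT₀⟩
        obtain ⟨r1, hr1⟩ := hv ⟨_, h6⟩
        have hr0' := congrArg Subtype.val hr0
        have hr1' := congrArg Subtype.val hr1
        simp only [Submodule.coe_smul] at hr0' hr1'
        have hr00 : r0 ≠ 0 := by
          rintro rfl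
          rw [zero_smul] at hr0'
          exact h3 hr0'.symm
        refine ⟨r1 / r0, ?_⟩
        rw [← hr0', ← hr1', smul_smul, div_mul_cancel₀ _ hr00]
      obtain ⟨r, hr⟩ := h7
      have h9 : ev (S u - S w) (p w) = 0 := by
        have : S u - S w = -(S w - S u) := by abel
        rw [this, ev_neg, h5, neg_zero]
      rw [← hr, ev_smul] at h9
      rcases smul_eq_zero.mp h9 with h10 | h10
      · rw [h10, zero_smul] at hr
        exact (sub_eq_zero.mp hr.symm).symm
      · exact absurd h10 h4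

end Pool.Agent.H36.MG
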