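import Pool.Agent.H52.MG.Basic
import Pool.Agent.H52.MG.Targets

/-!
# MG project: S4E (the relative motion is not the rotation about `uw`)
-/

set_option autoImplicit false

noncomputable section

open Classical Module
open scoped Matrix

namespace Pool.Agent.H36.MG

open Pool.Agent.H52.MG

lemma cr2_mono {V L : Type} [Fintype V] {H H' : SimpleGraph V} (h : ∀ u w, H.Adj u w → H'.Adj u w)
    (d : V → L) : cr2 H d ≤ cr2 H' d := by
  unfold cr2
  apply Finset.card_le_card
  intro x hx
  rw [Finset.mem_filter] at hx ⊢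
  exact ⟨hx.1, h _ _ hx.2.1, hx.2.2⟩

lemma s2_mono {V L : Type} [Fintype V] {H H' : SimpleGraph V} (h : ∀ u w, H.Adj u w → H'.Adj u w)
    (d : V → L) : s2 H d ≤ s2 H' d := by
  have := cr2_mono h d
  unfold s2
  omega

lemma cr2_addE {V L : Type} [Fintype V] (H : SimpleGraph V) (d : V → L) (u w : V)
    (h : ¬ H.Adj u w) (hd : d u ≠ d w) : cr2 H d + 2 ≤ cr2 (addE H u w) d := by
  have huw : u ≠ w := fun h => hd (by rw [h])
  have h2 : (u, w) ≠ (w, u) := fun h => huw (congrArg Prod.fst h)
  unfold cr2
  rw [← Finset.card_pair h2, ← Finset.card_union_of_disjoint]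
  · apply Finset.card_le_card
    intro x hx
    rw [Finset.mem_union, Finset.mem_filter, Finset.mem_insert, Finset.mem_singleton] at hx
    rw [Finset.mem_filter]
    rcases hx with hx | hx | hx
    · exact ⟨Finset.mem_univ _, Or.inl hx.2.1, hx.2.2⟩
    · subst hx
      exact ⟨Finset.mem_univ _, Or.inr ⟨huw, Or.inl ⟨rfl, rfl⟩⟩, hd⟩
    · subst hx
      exact ⟨Finset.mem_univ _, Or.inr ⟨huw.symm, Or.inr ⟨rfl, rfl⟩⟩, hd.symm⟩
  · rw [Finset.disjoint_left]
    intro x hx hx'
    rw [Finset.mem_filter] at hx
    rw [Finset.mem_insert, Finset.mem_singleton] at hx'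
    rcases hx' with hx' | hx'
    · subst hx'; exact h hx.2.1
    · subst hx'; exact h hx.2.1.symm

lemma s2_addE {V L : Type} [Fintype V] (H : SimpleGraph V) (d : V → L) (u w : V)
    (h : ¬ H.Adj u w) (hd : d u ≠ d w) : s2 H d + 10 ≤ s2 (addE H u w) d := by
  have := cr2_addE H d u w h hd
  unfold s2
  omega

/-- a motion of the rest, modified on the deleted class -/
def modS {V : Type} (c : V → V) (a u : V) (S : V → Scr) : V → Scr :=
  fun v => if c v = c a then S u else S v

lemma modS_out {V : Type} {c : V → V} {a u : V} {S : V → Scr} {v : V} (h : c v ≠ c a) :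
    modS c a u S v = S v := if_neg h

lemma modS_in {V : Type} {c : V → V} {a u : V} {S : V → Scr} {v : V} (h : c v = c a) :
    modS c a u S v = S u := if_pos h

lemma mrg_in {V : Type} {c : V → V} {a u v : V} (h : c v = c a) : mrg c u a v = c u := if_pos h

lemma mrg_out {V : Type} {c : V → V} {a u v : V} (h : c v ≠ c a) : mrg c u a v = c v := if_neg h

lemma modS_mem {V : Type} [Fintype V] {G : SimpleGraph V} {c : V → V} {p : V → Vec} {a u : V}
    {S : V → Scr} (hS : S ∈ Mot (delS G (cls c a)) c p) :
    modS c a u S ∈ Mot (delS G (cls c a)) (mrg c u a) p := by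
  rw [mem_Mot] at hS ⊢
  constructor
  · intro v z h
    by_cases hv : c v = c a
    · by_cases hz : c z = c a
      · rw [modS_in hv, modS_in hz]
      · rw [mrg_in hv, mrg_out hz] at h
        rw [modS_in hv, modS_out hz]
        exact hS.1 _ _ h
    · by_cases hz : c z = c a
      · rw [mrg_out hv, mrg_in hz] at h
        rw [modS_out hv, modS_in hz]
        exact hS.1 _ _ h
      · rw [mrg_out hv, mrg_out hz] at h
        rw [modS_out hv, modS_out hz]
        exact hS.1 _ _ h
  · intro v z h
    have hv : c v ≠ c a := h.2.1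
    have hz : c z ≠ c a := h.2.2
    rw [modS_out hv, modS_out hz]
    exact hS.2 _ _ h

theorem s4e (hS4C : T_S4C) (hS4D : T_S4D) (hMT : T_MT) (_hGP : T_GP) : T_S4E := by
  intro V _ G c p a u b w hg hD hT hCp hw hs S hS h1 h2
  have hS' := modS_mem (u := u) hS
  have e1 : modS c a u S u = S u := modS_out hD.ua
  have e2 : modS c a u S w = S w := modS_out hD.wa
  by_cases huw : G.Adj u w
  · have hC := hS4D V G c a u b w hD hT hCp hw huw hs
    have hf := hMT V (delS G (cls c a)) (mrg c u a) 0 p hg hC
    rw [← e1, ← e2]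
    exact Mot_const hf hS' u w
  · have hC : Cnd (addE (delS G (cls c a)) u w) (mrg c u a) 0 := by
      obtain ⟨h3, h4⟩ := hS4C V G c a u b w hD hT hs
      intro d hd
      by_cases hduw : d u = d w
      · have := h4 d hd hduw
        have h5 : s2 (delS G (cls c a)) d ≤ s2 (addE (delS G (cls c a)) u w) d :=
          s2_mono (fun _ _ h => Or.inl h) d
        push_cast
        linarith
      · have := h3 d hd
        have h5 := s2_addE (delS G (cls c a)) d u w (fun h => huw h.1) hduw
        push_cast at this ⊢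
        linarith
    have hf := hMT V (addE (delS G (cls c a)) u w) (mrg c u a) 0 p hg hC
    suffices hS2 : modS c a u S ∈ Mot (addE (delS G (cls c a)) u w) (mrg c u a) p by
      rw [← e1, ← e2]
      exact Mot_const hf hS2 u w
    rw [mem_Mot] at hS' ⊢
    refine ⟨hS'.1, ?_⟩
    rintro v z (h | ⟨_, ⟨rfl, rfl⟩ | ⟨rfl, rfl⟩⟩)
    · exact hS'.2 v z h
    · rw [e1, e2]
      rw [ev_sub] at h1
      exact sub_eq_zero.mp h1
    · rw [e1, e2]
      rw [ev_sub] at h2
      exact (sub_eq_zero.mp h2).symm

end Pool.Agent.H36.MG
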