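import Pool.Agent.H36.MG.S4E

/-!
# MG project: S4F (pinned motions)
-/

set_option autoImplicit false

noncomputable section

open Classical Module
open scoped Matrix

namespace Pool.Agent.H36.MG

open Pool.Agent.H52.MG

/-- a difference map kills the constant assignments -/
lemma finrank_map_dif {V : Type} [Fintype V] (N : Submodule ℝ (V → Scr))
    (hN : ∀ T : Scr, (fun _ => T) ∈ N) (u w : V) (k : ℕ) (h : finrank ℝ N ≤ 6 + k) :
    finrank ℝ (N.map (dif u w)) ≤ k := by
  have : Nonempty V := ⟨u⟩
  have hle : LinearMap.range (constMap V) ≤ N := by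
    rintro _ ⟨T, rfl⟩
    exact hN T
  have h1 := LinearMap.finrank_range_add_finrank_ker ((dif u w).domRestrict N)
  rw [LinearMap.range_domRestrict] at h1
  have h2 : finrank ℝ (Submodule.comap N.subtype (LinearMap.range (constMap V))) = 6 := by
    rw [LinearEquiv.finrank_eq (Submodule.comapSubtypeEquivOfLe hle), finrank_const]
  have h3 : Submodule.comap N.subtype (LinearMap.range (constMap V)) ≤
      LinearMap.ker ((dif u w).domRestrict N) := by
    rintro ⟨x, hx⟩ ⟨T, hT⟩
    rw [LinearMap.mem_ker]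
    simp only [Submodule.subtype_apply] at hT
    subst hT
    simp [LinearMap.domRestrict_apply, dif, constMap]
  have h4 := Submodule.finrank_mono h3
  omega

lemma urel_le_one (hS4C : T_S4C) (hMT : T_MT) {V : Type} [Fintype V] (G : SimpleGraph V)
    (c : V → V) (p : V → Vec) (a u b w : V) (hg : Gen p) (hD : Deg2 G c a u b w) (hT : Tt G c)
    (hs : ∀ d : V → V, Coarse c d → (∀ v, d v = d a → c v = c a) → 6 ≤ s2 G d) :
    finrank ℝ (Urel (delS G (cls c a)) c p u w) ≤ 1 := by
  obtain ⟨h3, h4⟩ := hS4C V G c a u b w hD hT hs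
  have hf := hMT V (delS G (cls c a)) (mrg c u a) 1 p hg h3
  have h5 := finrank_map_dif (Mot (delS G (cls c a)) (mrg c u a) p)
    (const_mem_Mot _ _ _) u w 1 hf
  refine (Submodule.finrank_mono ?_).trans h5
  intro T hT
  rw [mem_Urel] at hT
  obtain ⟨S, hS, rfl⟩ := hT
  rw [Submodule.mem_map]
  refine ⟨modS c a u S, modS_mem hS, ?_⟩
  simp only [dif, LinearMap.sub_apply, LinearMap.proj_apply]
  rw [modS_out hD.ua, modS_out hD.wa]

/-- a motion of the rest which is equal on `u`, `w` and the class `X` is constant -/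
lemma rest_const (hS4C : T_S4C) (hMT : T_MT) {V : Type} [Fintype V] (G : SimpleGraph V)
    (c : V → V) (p : V → Vec) (a u b w : V) (hg : Gen p) (hD : Deg2 G c a u b w) (hT : Tt G c)
    (hs : ∀ d : V → V, Coarse c d → (∀ v, d v = d a → c v = c a) → 6 ≤ s2 G d)
    (S : V → Scr) (hS : S ∈ Mot (delS G (cls c a)) c p) (huw : S u = S w) (hau : S a = S u) :
    ∀ v z, S v = S z := by
  obtain ⟨h3, h4⟩ := hS4C V G c a u b w hD hT hs
  have hC : Cnd (delS G (cls c a)) (mrg (mrg c u a) u w) 0 := by
    intro d hd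
    have hd1 : Coarse (mrg c u a) d := by
      intro x y hxy
      apply hd
      have k : ∀ x, mrg (mrg c u a) u w x =
        if mrg c u a x = mrg c u a w then mrg c u a u else mrg c u a x := fun _ => rfl
      rw [k, k, hxy]
    have hd2 : d u = d w := by
      apply hd
      have k : ∀ x, mrg (mrg c u a) u w x =
        if mrg c u a x = mrg c u a w then mrg c u a u else mrg c u a x := fun _ => rfl
      rw [k, k]
      simp
    have := h4 d hd1 hd2
    simpa using this
  have hf := hMT V _ _ 0 p hg hC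
  have hS' : S ∈ Mot (delS G (cls c a)) (mrg (mrg c u a) u w) p := by
    rw [mem_Mot] at hS ⊢
    refine ⟨?_, hS.2⟩
    -- `S` is constant on the classes of `mrg c u a`
    have k1 : ∀ x y, mrg c u a x = mrg c u a y → S x = S y := by
      intro x y h
      by_cases hx : c x = c a
      · by_cases hy : c y = c a
        · exact hS.1 _ _ (hx.trans hy.symm)
        · rw [mrg_in hx, mrg_out hy] at h
          rw [hS.1 _ _ hx, hau]
          exact hS.1 _ _ h
      · by_cases hy : c y = c a
        · rw [mrg_out hx, mrg_in hy] at h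
          rw [hS.1 _ _ hy, hau]
          exact hS.1 _ _ h
        · rw [mrg_out hx, mrg_out hy] at h
          exact hS.1 _ _ h
    intro x y h
    by_cases hx : mrg c u a x = mrg c u a w
    · by_cases hy : mrg c u a y = mrg c u a w
      · exact k1 _ _ (hx.trans hy.symm)
      · rw [mrg_in hx, mrg_out hy] at h
        rw [k1 _ _ hx, ← huw]
        exact k1 _ _ h
    · by_cases hy : mrg c u a y = mrg c u a w
      · rw [mrg_out hx, mrg_in hy] at h
        rw [k1 _ _ hy, ← huw]
        exact k1 _ _ h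
      · rw [mrg_out hx, mrg_out hy] at h
        exact k1 _ _ h
  exact fun v z => Mot_const hf hS' v z

theorem s4f (hGS : T_GS) (hS4C : T_S4C) (hMT : T_MT) (hLA4 : T_LA4) (hGP : T_GP) : T_S4F := by
  intro V _ G c p a u b w hg hD hT hs hP
  have hU := urel_le_one hS4C hMT G c p a u b w hg hD hT hs
  have huw : u ≠ w := fun h => hD.uw (by rw [h])
  have hpuw : p u ≠ p w := (hGP V p hg).1 u w huw
  have hub : u ≠ b := fun h => hD.ua (by rw [h]; exact hD.cb)
  have hwb : w ≠ b := fun h => hD.wa (by rw [h]; exact hD.cb)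
  have hua : u ≠ a := fun h => hD.ua (by rw [h])
  have hwa : w ≠ a := fun h => hD.wa (by rw [h])
  obtain ⟨b₀, hb₀, hb⟩ := hLA4 (Urel (delS G (cls c a)) c p u w) (p u) (p w) hU hpuw (by
    intro T hT h0
    rw [mem_Urel] at hT
    obtain ⟨S, hS, rfl⟩ := hT
    rw [hP S hS h0, sub_self])
  refine (hGS V _ _ _ p (Function.update p b b₀) hg).trans ?_
  apply finrank_le_six
  intro S hS
  have hS0 : S ∈ PinMot G c (Function.update p b b₀) a := hS
  rw [mem_PinMot] at hS0
  obtain ⟨k1, k2⟩ := hS0
  have hSM : S ∈ Mot (delS G (cls c a)) c p := by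
    rw [mem_Mot]
    refine ⟨k1, ?_⟩
    intro v z h
    have hv : c v ≠ c a := h.2.1
    have hva : v ≠ a := fun h => hv (by rw [h])
    have hvb : v ≠ b := fun h => hv (by rw [h]; exact hD.cb)
    have := k2 v z h.1 hva
    rwa [Function.update_of_ne hvb] at this
  have hab : S a = S b := k1 a b hD.cb.symm
  have e1 := k2 u a hD.e1.symm hua
  rw [Function.update_of_ne hub] at e1
  have e2 := k2 b w hD.e2 hD.ab.symm
  rw [Function.update_self] at e2
  have e3 := k2 w b hD.e2.symm hwa
  rw [Function.update_of_ne hwb] at e3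
  obtain ⟨r, hr⟩ := scr_two (S b - S w) b₀ (p w) hb₀ (by rw [ev_sub, e2, sub_self])
    (by rw [ev_sub, ← e3, sub_self])
  have e4 : ev (S u - S w) (p u) = r • ev (lin b₀ (p w)) (p u) := by
    rw [← ev_smul, ← hr, ev_sub, ev_sub, e1, hab]
  obtain ⟨h0, hr0⟩ := hb _ (mem_Urel.mpr ⟨S, hSM, rfl⟩) r e4
  have h1 : S u = S w := sub_eq_zero.mp h0
  have h2 : S a = S u := by
    rw [hr0, zero_smul] at hr
    rw [hab, sub_eq_zero.mp hr, h1]
  exact rest_const hS4C hMT G c p a u b w hg hD hT hs S hSM h1 h2

end Pool.Agent.H36.MG
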